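import Mathlib
import Pool.Agent.Y935.KLKN

set_option autoImplicit false

open Finset

namespace Pool.Agent.Y391.RB

lemma deg_ge {V W : Type*} [Fintype V] [Fintype W] (G : SimpleGraph V) [DecidableRel G.Adj]
    (u : V) (f : W → V) (hf : Function.Injective f) (h : ∀ w, G.Adj u (f w)) :
    Fintype.card W ≤ G.degree u := by
  rw [← SimpleGraph.card_neighborSet_eq_degree]
  exact Fintype.card_le_of_injective (fun w => (⟨f w, h w⟩ : G.neighborSet u))
    (fun a b hab => hf (by simpa using hab))

lemma codeg_ge {V W : Type*} [Fintype V] [Fintype W] (G : SimpleGraph V)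
    (u v : V) (f : W → V) (hf : Function.Injective f) (h : ∀ w, G.Adj u (f w))
    (h' : ∀ w, G.Adj v (f w)) :
    Fintype.card W ≤ (G.commonNeighbors u v).ncard := by
  rw [← Nat.card_eq_fintype_card, ← Nat.card_coe_set_eq]
  exact Nat.card_le_card_of_injective
    (fun w => (⟨f w, h w, h' w⟩ : (G.commonNeighbors u v : Set V)))
    (fun a b hab => hf (by simpa using hab))

/-- every two-colouring leaves two nonadjacent vertices all whose common neighbours see them in
the same colour -/
def NoTwo {V : Type} (G : SimpleGraph V) : Prop :=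
  ∀ col : Sym2 V → ℕ, (∀ e ∈ G.edgeSet, col e < 2) →
    ∃ u v, u ≠ v ∧ ¬ G.Adj u v ∧ ∀ w, G.Adj u w → G.Adj v w → col s(u, w) = col s(v, w)

/-! ### complete bipartite graphs -/

/-- the complete bipartite graph with parts of size `s` and `2 ^ s + 1` -/
def BG (s : ℕ) : SimpleGraph (Fin s ⊕ Fin (2 ^ s + 1)) where
  Adj u v := match u, v with
    | .inl _, .inr _ => True
    | .inr _, .inl _ => True
    | _, _ => False
  symm := ⟨by rintro (a | a) (b | b) h <;> simp_all⟩
  loopless := ⟨by rintro (a | a) h <;> simp_all⟩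

lemma BG_noTwo (s : ℕ) : NoTwo (BG s) := by
  intro col hcol
  have hlt : ∀ (a : Fin s) (b : Fin (2 ^ s + 1)), col s(Sum.inr b, Sum.inl a) < 2 := by
    intro a b
    exact hcol _ (by rw [SimpleGraph.mem_edgeSet]; trivial)
  obtain ⟨b, b', hne, heq⟩ := Fintype.exists_ne_map_eq_of_card_lt
    (fun b : Fin (2 ^ s + 1) => (fun a : Fin s => (⟨col s(Sum.inr b, Sum.inl a), hlt a b⟩ : Fin 2)))
    (by simp)
  refine ⟨Sum.inr b, Sum.inr b', by simpa using hne, fun h => h, ?_⟩
  rintro (a | a) h1 h2
  · have := congrFun heq a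
    simpa using this
  · exact h1.elim

lemma BG_connected (s : ℕ) (hs : 1 ≤ s) : (BG s).Connected := by
  rw [SimpleGraph.connected_iff_exists_forall_reachable]
  refine ⟨Sum.inr 0, ?_⟩
  have h1 : ∀ a : Fin s, (BG s).Reachable (Sum.inr 0) (Sum.inl a) := fun a =>
    SimpleGraph.Adj.reachable (by trivial)
  rintro (a | b)
  · exact h1 a
  · refine (h1 ⟨0, hs⟩).trans (SimpleGraph.Adj.reachable (by trivial))

lemma BG_deg (s : ℕ) [DecidableRel (BG s).Adj] (hs : 1 ≤ s) (u v : Fin s ⊕ Fin (2 ^ s + 1))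
    (hadj : ¬ (BG s).Adj u v) :
    Fintype.card (Fin s ⊕ Fin (2 ^ s + 1)) ≤ (BG s).degree u + (BG s).degree v + 2 ^ s ∧
      s ≤ ((BG s).commonNeighbors u v).ncard := by
  have hl : ∀ a : Fin s, 2 ^ s + 1 ≤ (BG s).degree (Sum.inl a) := by
    intro a
    have := deg_ge (BG s) (Sum.inl a) (Sum.inr : Fin (2 ^ s + 1) → _) Sum.inr_injective
      (fun _ => trivial)
    simpa using this
  have hr : ∀ b : Fin (2 ^ s + 1), s ≤ (BG s).degree (Sum.inr b) := by
    intro b
    have := deg_ge (BG s) (Sum.inr b) (Sum.inl : Fin s → _) Sum.inl_injective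
      (fun _ => trivial)
    simpa using this
  rw [Fintype.card_sum, Fintype.card_fin, Fintype.card_fin]
  have h2 : s < 2 ^ s := Nat.lt_two_pow_self
  rcases u with a | a <;> rcases v with b | b
  · have h3 := hl a
    have h4 := hl b
    refine ⟨by omega, ?_⟩
    have := codeg_ge (BG s) (Sum.inl a) (Sum.inl b) (Sum.inr : Fin (2 ^ s + 1) → _)
      Sum.inr_injective (fun _ => trivial) (fun _ => trivial)
    rw [Fintype.card_fin] at this
    omega
  · exact (hadj trivial).elim
  · exact (hadj trivial).elim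
  · have h3 := hr a
    have h4 := hr b
    refine ⟨by omega, ?_⟩
    have := codeg_ge (BG s) (Sum.inr a) (Sum.inr b) (Sum.inl : Fin s → _)
      Sum.inl_injective (fun _ => trivial) (fun _ => trivial)
    rwa [Fintype.card_fin] at this

/-! ### graphs of almost the threshold minimum degree -/

/-- `k`-subsets of `{0, …, N - 1}` -/
abbrev KS (N k : ℕ) : Type := {A : Finset ℕ // A ∈ (range N).powersetCard k}

/-- the vertices -/
abbrev VS (s N k z : ℕ) : Type := Fin s ⊕ (KS N k ⊕ (Fin N × Fin z))

/-- `s` vertices adjacent to all others, the `k`-subsets of `{0, …, N - 1}`, and a clique consisting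
of `z` copies of every point; a set is adjacent to the copies of its elements -/
def SG (s N k z : ℕ) : SimpleGraph (VS s N k z) where
  Adj u v := match u, v with
    | .inl a, .inl b => a ≠ b
    | .inl _, .inr _ => True
    | .inr _, .inl _ => True
    | .inr (.inl _), .inr (.inl _) => False
    | .inr (.inl A), .inr (.inr p) => (p.1 : ℕ) ∈ A.1
    | .inr (.inr p), .inr (.inl A) => (p.1 : ℕ) ∈ A.1
    | .inr (.inr p), .inr (.inr q) => p ≠ q
  symm := ⟨by
    rintro (a | a | a) (b | b | b) h
    · exact fun h' => h h'.symm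
    · trivial
    · trivial
    · trivial
    · exact h
    · exact h
    · trivial
    · exact h
    · exact fun h' => h h'.symm⟩
  loopless := ⟨by
    rintro (a | a | a) h
    · exact h rfl
    · exact h
    · exact h rfl⟩

lemma SG_noTwo (s N k z : ℕ) (hk : 1 ≤ k) (hN : 2 ^ s + 2 * k ≤ N) : NoTwo (SG s N k z) := by
  classical
  intro col hcol
  have hlt : ∀ (a : Fin s) (A : KS N k), col s(Sum.inr (Sum.inl A), Sum.inl a) < 2 := by
    intro a A
    exact hcol _ (by rw [SimpleGraph.mem_edgeSet]; trivial)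
  let code : KS N k → Fin (2 ^ s) := fun A => finFunctionFinEquiv
    (fun a : Fin s => (⟨col s(Sum.inr (Sum.inl A), Sum.inl a), hlt a A⟩ : Fin 2))
  obtain ⟨S, T, hS, hT, hSk, hTk, hdis, heq⟩ := Pool.Agent.Y935.KLKN.t_kn k (2 ^ s) N hk (by omega)
    (fun S => if h : S ∈ (range N).powersetCard k then (code ⟨S, h⟩).val else 0) (by
      intro S hS hSk
      rw [dif_pos (mem_powersetCard.mpr ⟨hS, hSk⟩)]
      exact (code _).isLt)
  have hS' : S ∈ (range N).powersetCard k := mem_powersetCard.mpr ⟨hS, hSk⟩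
  have hT' : T ∈ (range N).powersetCard k := mem_powersetCard.mpr ⟨hT, hTk⟩
  rw [dif_pos hS', dif_pos hT'] at heq
  have heq2 : code ⟨S, hS'⟩ = code ⟨T, hT'⟩ := Fin.ext heq
  have heq3 := finFunctionFinEquiv.injective heq2
  refine ⟨Sum.inr (Sum.inl ⟨S, hS'⟩), Sum.inr (Sum.inl ⟨T, hT'⟩), ?_, fun h => h, ?_⟩
  · intro h
    have h1 : S = T := by
      have := Sum.inl_injective (Sum.inr_injective h)
      exact congrArg Subtype.val this
    rw [← h1, disjoint_self_iff_empty] at hdis
    rw [hdis, card_empty] at hSk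
    omega
  · rintro (a | A | p) h1 h2
    · have := congrFun heq3 a
      simpa using this
    · exact h1.elim
    · exact (disjoint_left.mp hdis h1 h2).elim

lemma SG_univ (s N k z : ℕ) (a : Fin s) (u : VS s N k z) (hu : u ≠ Sum.inl a) :
    (SG s N k z).Adj u (Sum.inl a) := by
  rcases u with b | u
  · exact fun h => hu (by rw [h])
  · rcases u with A | p <;> trivial

lemma SG_connected (s N k z : ℕ) (hs : 1 ≤ s) : (SG s N k z).Connected := by
  rw [SimpleGraph.connected_iff_exists_forall_reachable]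
  refine ⟨Sum.inl ⟨0, hs⟩, ?_⟩
  intro u
  by_cases hu : u = Sum.inl ⟨0, hs⟩
  · rw [hu]
  · exact (SG_univ s N k z ⟨0, hs⟩ u hu).symm.reachable

lemma SG_codeg (s N k z : ℕ) (u v : VS s N k z) (hne : u ≠ v) (hadj : ¬ (SG s N k z).Adj u v) :
    s ≤ ((SG s N k z).commonNeighbors u v).ncard := by
  have hu : ∀ a : Fin s, u ≠ Sum.inl a := by
    rintro a rfl
    exact hadj (SG_univ s N k z a v hne.symm).symm
  have hv : ∀ a : Fin s, v ≠ Sum.inl a := by
    rintro a rfl
    exact hadj (SG_univ s N k z a u hne)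
  have := codeg_ge (SG s N k z) u v (Sum.inl : Fin s → _) Sum.inl_injective
    (fun a => SG_univ s N k z a u (hu a)) (fun a => SG_univ s N k z a v (hv a))
  rwa [Fintype.card_fin] at this

lemma SG_card (s N k z : ℕ) : Fintype.card (VS s N k z) = s + (N.choose k + N * z) := by
  rw [Fintype.card_sum, Fintype.card_sum, Fintype.card_prod, Fintype.card_fin, Fintype.card_fin,
    Fintype.card_fin, Fintype.card_coe, card_powersetCard, card_range]

lemma SG_deg (s N k z : ℕ) [DecidableRel (SG s N k z).Adj] (u : VS s N k z) :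
    s + k * z ≤ (SG s N k z).degree u ∨
      s + (N * z - 1) ≤ (SG s N k z).degree u ∨
      s + (N.choose k + N * z) - 1 ≤ (SG s N k z).degree u := by
  classical
  rcases u with a | A | p
  · right; right
    have := deg_ge (SG s N k z) (Sum.inl a)
      (fun w : {w : VS s N k z // w ≠ Sum.inl a} => w.1) Subtype.val_injective
      (fun w => (SG_univ s N k z a w.1 w.2).symm)
    rw [Fintype.card_subtype_compl, Fintype.card_subtype_eq, SG_card] at this
    exact this
  · left
    have hA := mem_powersetCard.mp A.2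
    have := deg_ge (SG s N k z) (Sum.inr (Sum.inl A))
      (Sum.elim Sum.inl (fun w : A.1 × Fin z =>
        Sum.inr (Sum.inr (⟨w.1.1, mem_range.mp (hA.1 w.1.2)⟩, w.2))) :
        Fin s ⊕ (A.1 × Fin z) → VS s N k z) (by
        rintro (a | ⟨a, b⟩) (a' | ⟨a', b'⟩) h
        · simpa using h
        · simp at h
        · simp at h
        · simp only [Sum.elim_inr, Sum.inr.injEq, Prod.mk.injEq, Fin.mk.injEq] at h
          obtain ⟨h1, h2⟩ := h
          rw [Subtype.ext h1, h2])
      (by
        rintro (a | ⟨a, b⟩)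
        · trivial
        · exact a.2)
    rw [Fintype.card_sum, Fintype.card_prod, Fintype.card_fin, Fintype.card_fin, Fintype.card_coe,
      hA.2] at this
    exact this
  · right; left
    have := deg_ge (SG s N k z) (Sum.inr (Sum.inr p))
      (Sum.elim Sum.inl (fun w : {w : Fin N × Fin z // w ≠ p} => Sum.inr (Sum.inr w.1)) :
        Fin s ⊕ {w : Fin N × Fin z // w ≠ p} → VS s N k z) (by
        rintro (a | a) (a' | a') h
        · simpa using h
        · simp at h
        · simp at h
        · simp only [Sum.elim_inr, Sum.inr.injEq] at h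
          rw [Subtype.ext h])
      (by
        rintro (a | a)
        · trivial
        · exact a.2.symm)
    rw [Fintype.card_sum, Fintype.card_subtype_compl, Fintype.card_subtype_eq, Fintype.card_prod,
      Fintype.card_fin, Fintype.card_fin, Fintype.card_fin] at this
    exact this

lemma two_pow_ge (N : ℕ) (h : 6 ≤ N) : N + 2 ≤ 2 ^ N := by
  induction N, h using Nat.le_induction with
  | base => norm_num
  | succ n hn ih =>
    rw [pow_succ]
    omega

/-- the parameters -/
lemma SG_params (D s : ℕ) (hD0 : 1 ≤ D) (hs : 1 ≤ s) : ∃ N k z : ℕ, 1 ≤ k ∧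
    2 ^ s + 2 * k ≤ N ∧ Fintype.card (VS s N k z) ≤ 2 ^ ((4 * D + 2) * 2 ^ s) ∧
    ∀ d : ℕ, (s + k * z ≤ d ∨ s + (N * z - 1) ≤ d ∨ s + (N.choose k + N * z) - 1 ≤ d) →
      (1 / 2 - 1 / (D : ℝ)) * (Fintype.card (VS s N k z) : ℝ) ≤ d := by
  have hD0R : (0 : ℝ) < D := by exact_mod_cast hD0
  obtain ⟨η, hη⟩ : ∃ η : ℝ, η = 1 / (D : ℝ) := ⟨_, rfl⟩
  rw [← hη]
  have hDη : 1 ≤ D * η := by
    rw [hη, mul_one_div_cancel hD0R.ne']
  have hη0 : 0 < η := by rw [hη]; positivity
  set P := 2 ^ s with hP
  have hPpos : 2 ≤ P := by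
    calc 2 = 2 ^ 1 := by norm_num
      _ ≤ 2 ^ s := Nat.pow_le_pow_right (by norm_num) hs
  have hsP : s < P := Nat.lt_two_pow_self
  set N := (2 * D + 1) * P with hN
  set k := D * P with hk
  set z := 2 ^ N with hz
  have hk1 : 1 ≤ k := Nat.mul_pos hD0 (by omega)
  have hNk : P + 2 * k = N := by rw [hN, hk]; ring
  have hch : N.choose k ≤ z := Nat.choose_le_two_pow N k
  have hN6 : 6 ≤ N := by
    rw [hN]
    nlinarith
  have hz1 : 64 ≤ z := by
    calc 64 = 2 ^ 6 := by norm_num
      _ ≤ 2 ^ N := Nat.pow_le_pow_right (by norm_num) hN6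
  have hNz : N < z := Nat.lt_two_pow_self
  have hPN : P ≤ N := by omega
  have hchR : ((N.choose k : ℕ) : ℝ) ≤ z := by exact_mod_cast hch
  have hNR : (N : ℝ) = (2 * D + 1) * P := by rw [hN]; push_cast; ring
  have hkR : (k : ℝ) = D * P := by rw [hk]; push_cast; ring
  have hPR : (2 : ℝ) ≤ P := by exact_mod_cast hPpos
  have hsR : (1 : ℝ) ≤ s := by exact_mod_cast hs
  have hzR : (64 : ℝ) ≤ z := by exact_mod_cast hz1
  have hDR : (1 : ℝ) ≤ D := by exact_mod_cast hD0
  have hN6R : (6 : ℝ) ≤ N := by exact_mod_cast hN6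
  refine ⟨N, k, z, hk1, hNk.le, ?_, ?_⟩
  · rw [SG_card]
    have h1 : s + (N.choose k + N * z) ≤ z * z := by
      have h2 : s ≤ z := by omega
      have h3 : (N + 2) ≤ z := by
        exact two_pow_ge N hN6
      calc s + (N.choose k + N * z) ≤ z + (z + N * z) := by omega
        _ = (N + 2) * z := by ring
        _ ≤ z * z := Nat.mul_le_mul_right _ h3
    refine le_trans h1 ?_
    rw [hz, ← pow_add]
    apply Nat.pow_le_pow_right (by norm_num)
    rw [hN]
    nlinarith
  · rw [SG_card]
    intro d hd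
    push_cast
    rcases hd with h | h | h
    · have hR : (s : ℝ) + k * z ≤ d := by exact_mod_cast h
      refine le_trans ?_ hR
      have h1 : (1 / 2 - η) * ((s : ℝ) + ((N.choose k : ℕ) + N * z)) ≤
          1 / 2 * (s + z) + (1 / 2 - η) * (N * z) := by
        have h2 : 0 ≤ η * (s + (N.choose k : ℕ)) := by positivity
        nlinarith
      refine le_trans h1 ?_
      rw [hNR, hkR]
      have h3 : (P : ℝ) * z * (1 / 2) + z * (1 / 2) ≤ η * ((2 * D + 1) * P * z) := by
        have h4 : (2 : ℝ) ≤ η * (2 * D + 1) := by nlinarith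
        have h5 : (2 : ℝ) * (P * z) ≤ (η * (2 * D + 1)) * (P * z) :=
          mul_le_mul_of_nonneg_right h4 (by positivity)
        have h6 : (z : ℝ) ≤ P * z := by nlinarith
        nlinarith
      nlinarith
    · have h' : s + N * z ≤ d + 1 := by
        have : 1 ≤ N * z := Nat.mul_pos (by omega) (by omega)
        omega
      have hR : (s : ℝ) + N * z ≤ d + 1 := by exact_mod_cast h'
      have h1 : (1 / 2 - η) * ((s : ℝ) + ((N.choose k : ℕ) + N * z)) ≤
          1 / 2 * (s + (z + N * z)) := by
        have h2 : 0 ≤ η * (s + ((N.choose k : ℕ) + N * z)) := by positivity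
        nlinarith
      have h3 : (6 : ℝ) * z ≤ N * z := mul_le_mul_of_nonneg_right hN6R (by positivity)
      nlinarith
    · have h' : s + (N.choose k + N * z) ≤ d + 1 := by omega
      have hR : (s : ℝ) + ((N.choose k : ℕ) + N * z) ≤ d + 1 := by exact_mod_cast h'
      have h1 : (1 / 2 - η) * ((s : ℝ) + ((N.choose k : ℕ) + N * z)) ≤
          1 / 2 * (s + ((N.choose k : ℕ) + N * z)) := by
        have h2 : 0 ≤ η * (s + ((N.choose k : ℕ) + N * z)) := by positivity
        nlinarith
      have h3 : (6 : ℝ) * z ≤ N * z := mul_le_mul_of_nonneg_right hN6R (by positivity)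
      have h4 : (0 : ℝ) ≤ (N.choose k : ℕ) := by positivity
      nlinarith

end Pool.Agent.Y391.RB
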