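import Mathlib
import Pool.Agent.Helper208.Rainbow.Main

set_option autoImplicit false

open Finset

namespace Pool.Agent.Y391.RB

open Pool.Agent.Helper208.Rainbow

variable {V : Type*} [Fintype V] [DecidableEq V] {G : SimpleGraph V} [DecidableRel G.Adj]

/-- for nonadjacent vertices the number of vertices adjacent to neither of them is at most `L`
times the number of their common neighbours -/
def CU (G : SimpleGraph V) [DecidableRel G.Adj] (L : ℕ) : Prop :=
  ∀ u v, u ≠ v → ¬ G.Adj u v → ((nb G u ∪ nb G v)ᶜ).card ≤ L * t G u v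

lemma dl_edge' {L : ℕ} (hL : 1 ≤ L) (hcu : CU G L) {u v : V} {s : ℕ} (huv : u ≠ v)
    (hadj : ¬ G.Adj u v) (h : t G u v ≤ s) : Fintype.card V ≤ dl G u v + 2 * (L * s) := by
  have h1 := hcu u v huv hadj
  have h4 := card_compl (nb G u ∪ nb G v)
  have h5 : (nb G u ∪ nb G v).card ≤ Fintype.card V := card_le_univ _
  have h6 : nb G u ∪ nb G v = symmDiff (nb G u) (nb G v) ∪ (nb G u ∩ nb G v) := by
    ext x; simp only [mem_union, mem_symmDiff, mem_inter]; tauto
  have h7 : (nb G u ∪ nb G v).card ≤ dl G u v + t G u v := by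
    rw [h6]; unfold dl t; rw [W_eq]; exact card_union_le _ _
  have h8 : L * t G u v ≤ L * s := Nat.mul_le_mul_left _ h
  have h9 : s ≤ L * s := Nat.le_mul_of_pos_left _ hL
  omega

lemma adj_bounds' {L : ℕ} (hL : 1 ≤ L) (hcu : CU G L) (Y : Finset V) {u v : V} {s : ℕ}
    (huv : u ≠ v) (hadj : ¬ G.Adj u v) (h : t G u v ≤ s) :
    (nb G u ∩ Y).card + (nb G v ∩ Y).card ≤ Y.card + L * s ∧
      Y.card ≤ (nb G u ∩ Y).card + (nb G v ∩ Y).card + L * s := by
  have h8 : L * t G u v ≤ L * s := Nat.mul_le_mul_left _ h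
  have h9 : s ≤ L * s := Nat.le_mul_of_pos_left _ hL
  constructor
  · have h1 := card_union_add_card_inter (nb G u ∩ Y) (nb G v ∩ Y)
    have h2 : (nb G u ∩ Y ∪ nb G v ∩ Y).card ≤ Y.card := by
      apply card_le_card
      intro x hx
      simp only [mem_union, mem_inter] at hx
      tauto
    have h3 : ((nb G u ∩ Y) ∩ (nb G v ∩ Y)).card ≤ t G u v := by
      unfold t
      rw [W_eq]
      apply card_le_card
      intro x hx
      simp only [mem_inter] at hx ⊢
      tauto
    omega
  · have h1 := hcu u v huv hadj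
    have h2 : Y ⊆ (nb G u ∩ Y) ∪ (nb G v ∩ Y) ∪ (nb G u ∪ nb G v)ᶜ := by
      intro x hx
      simp only [mem_union, mem_inter, mem_compl]
      tauto
    have h3 := card_le_card h2
    have h4 := card_union_le ((nb G u ∩ Y) ∪ (nb G v ∩ Y)) ((nb G u ∪ nb G v)ᶜ)
    have h5 := card_union_le (nb G u ∩ Y) (nb G v ∩ Y)
    omega

lemma sdiff_nb_le' {L : ℕ} (hL : 1 ≤ L) (hcu : CU G L) {x y y' : V} {s : ℕ}
    (hxy' : x ≠ y') (hadj' : ¬ G.Adj x y')
    (h : t G x y ≤ s) (h' : t G x y' ≤ s) : (nb G y \ nb G y').card ≤ 2 * (L * s) := by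
  have h1 : nb G y \ nb G y' ⊆ (nb G x ∩ nb G y) ∪ (nb G x ∪ nb G y')ᶜ := by
    intro z hz
    simp only [mem_sdiff, mem_union, mem_inter, mem_compl] at hz ⊢
    tauto
  have h2 := card_le_card h1
  have h3 := card_union_le (nb G x ∩ nb G y) ((nb G x ∪ nb G y')ᶜ)
  have h4 := hcu x y' hxy' hadj'
  have h8 : L * t G x y' ≤ L * s := Nat.mul_le_mul_left _ h'
  have h9 : s ≤ L * s := Nat.le_mul_of_pos_left _ hL
  rw [← W_eq] at h3 h2
  unfold t at h h' h4 h8
  omega

lemma bb_edge' {L : ℕ} (hL : 1 ≤ L) (hcu : CU G L) (Y : Finset V) {u v : V} {s : ℕ}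
    (huv : u ≠ v) (hadj : ¬ G.Adj u v) (h : t G u v ≤ s) : bb G Y u ≤ bb G Y v + L * s := by
  obtain ⟨h1, h2⟩ := adj_bounds' hL hcu Y huv hadj h
  have h3 := nbY_le (G := G) Y u
  have h4 := nbY_le (G := G) Y v
  unfold bb
  omega

/-- the auxiliary graph on the closed middle part -/
def HN (G : SimpleGraph V) [DecidableRel G.Adj] (Mid : Finset V) (s : ℕ) : SimpleGraph V where
  Adj u v := u ≠ v ∧ ¬ G.Adj u v ∧ t G u v ≤ s ∧ u ∈ Mid ∧ v ∈ Mid
  symm := ⟨fun u v h => ⟨h.1.symm, fun h' => h.2.1 h'.symm, by rw [t_comm]; exact h.2.2.1,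
    h.2.2.2.2, h.2.2.2.1⟩⟩
  loopless := ⟨fun u h => h.1 rfl⟩

lemma walk_dl' {L : ℕ} (hL : 1 ≤ L) (hcu : CU G L) (Mid : Finset V) (s : ℕ) {r u : V}
    (p : (HN G Mid s).Walk r u) :
    (Even p.length → dl G r u ≤ 2 * (L * s) * p.length) ∧
      (Odd p.length → Fintype.card V ≤ dl G r u + 2 * (L * s) * p.length) := by
  induction p with
  | nil =>
    constructor
    · intro _
      simp [dl]
    · intro h
      simp at h
  | @cons r r' u hadj p ih =>
    have h1 := dl_edge' hL hcu hadj.1 hadj.2.1 hadj.2.2.1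
    have h2 := dl_perimeter (G := G) r r' u
    have h3 := dl_triangle (G := G) r u r'
    rw [dl_comm u r'] at h3
    rw [SimpleGraph.Walk.length_cons]
    have h4 : 2 * (L * s) * (p.length + 1) = 2 * (L * s) * p.length + 2 * (L * s) := by ring
    rw [h4]
    constructor
    · intro he
      have ho : Odd p.length := by
        rcases Nat.even_or_odd p.length with h | h
        · exact absurd he (by simpa [Nat.even_add_one] using h)
        · exact h
      have := ih.2 ho
      omega
    · intro ho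
      have he : Even p.length := by
        rcases Nat.even_or_odd p.length with h | h
        · exact h
        · exact absurd ho (by simpa [Nat.odd_add_one] using h)
      have := ih.1 he
      omega

lemma path_length_le' (Mid : Finset V) (s : ℕ) {r u : V} (hr : r ∈ Mid)
    (p : (HN G Mid s).Walk r u) (hp : p.IsPath) : p.length ≤ Mid.card := by
  have h1 : p.support.toFinset ⊆ Mid := by
    intro x hx
    rw [List.mem_toFinset] at hx
    clear hp
    induction p with
    | nil =>
      simp at hx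
      rw [hx]; exact hr
    | cons hadj p ih =>
      rw [SimpleGraph.Walk.support_cons, List.mem_cons] at hx
      rcases hx with rfl | hx
      · exact hr
      · exact ih hadj.2.2.2.2 hx
  have h2 := card_le_card h1
  rw [List.toFinset_card_of_nodup hp.support_nodup, SimpleGraph.Walk.length_support] at h2
  omega

/-- 2-colouring of the middle part -/
lemma mid_colour' {L : ℕ} (hL : 1 ≤ L) (hcu : CU G L) (Mid : Finset V) (s s' : ℕ)
    (hs : 1 ≤ s) (hs' : 1 ≤ s') (hn : 90 * (L * s) * (L * s') ≤ Fintype.card V)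
    (hMid : Mid.card ≤ 12 * (L * s')) :
    ∃ f : V → Bool, ∀ u ∈ Mid, ∀ v ∈ Mid, u ≠ v → ¬ G.Adj u v → t G u v ≤ s → f u ≠ f v := by
  classical
  have hrep : ∀ c : (HN G Mid s).ConnectedComponent, ∃ r, (HN G Mid s).connectedComponentMk r = c :=
    fun c => c.exists_rep
  choose rep hrep using hrep
  refine ⟨fun u => decide (Fintype.card V < 2 * dl G (rep ((HN G Mid s).connectedComponentMk u)) u),
    ?_⟩
  intro u hu v hv huv hna ht
  have hadj : (HN G Mid s).Adj u v := ⟨huv, hna, ht, hu, hv⟩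
  have hc : (HN G Mid s).connectedComponentMk u = (HN G Mid s).connectedComponentMk v :=
    SimpleGraph.ConnectedComponent.connectedComponentMk_eq_of_adj hadj
  simp only
  rw [← hc]
  set r := rep ((HN G Mid s).connectedComponentMk u) with hrd
  have hreach : (HN G Mid s).Reachable r u := SimpleGraph.ConnectedComponent.exact (hrep _)
  obtain ⟨p, hp⟩ := hreach.exists_isPath
  have hlen : p.length ≤ 12 * (L * s') := by
    have h1 : p.reverse.length ≤ Mid.card := path_length_le' Mid s hu p.reverse hp.reverse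
    rw [SimpleGraph.Walk.length_reverse] at h1
    omega
  have hw := walk_dl' hL hcu Mid s p
  have hLs : 1 ≤ L * s := Nat.mul_pos hL hs
  have hLs' : 1 ≤ L * s' := Nat.mul_pos hL hs'
  have hss : 2 * (L * s) * p.length ≤ 24 * ((L * s) * (L * s')) := by
    calc 2 * (L * s) * p.length ≤ 2 * (L * s) * (12 * (L * s')) := Nat.mul_le_mul_left _ hlen
      _ = 24 * ((L * s) * (L * s')) := by ring
  have hss1 : (L * s) ≤ (L * s) * (L * s') := Nat.le_mul_of_pos_right _ hLs'
  have hn' : 90 * ((L * s) * (L * s')) ≤ Fintype.card V := by rw [← mul_assoc]; exact hn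
  have hpos : 1 ≤ (L * s) * (L * s') := Nat.mul_pos hLs hLs'
  have h1 := dl_edge' hL hcu huv hna ht
  have h2 := dl_perimeter (G := G) r u v
  have h3 := dl_triangle (G := G) u r v
  rw [dl_comm u r] at h3
  rcases Nat.even_or_odd p.length with he | ho
  · have h4 := hw.1 he
    have h5 : ¬ Fintype.card V < 2 * dl G r u := by omega
    have h6 : Fintype.card V < 2 * dl G r v := by omega
    simp [h5, h6]
  · have h4 := hw.2 ho
    have h5 : Fintype.card V < 2 * dl G r u := by omega
    have h6 : ¬ Fintype.card V < 2 * dl G r v := by omega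
    simp [h5, h6]

/-- structure lemma: one vertex with many partners at scale `s'` makes all pairs at scale `s`
bipartite -/
lemma structure_lemma' {L : ℕ} (hL : 1 ≤ L) (hcu : CU G L) (s s' : ℕ)
    (hs : 1 ≤ s) (hs' : 1 ≤ s') (x : V) (hD : 90 * (L * s) * (L * s') ≤ (DD G x s').card) :
    ∃ f : V → Bool, ∀ u v, u ≠ v → ¬ G.Adj u v → t G u v ≤ s → f u ≠ f v := by
  classical
  set Y := DD G x s' with hY
  have hLs : 1 ≤ L * s := Nat.mul_pos hL hs
  have hLs' : 1 ≤ L * s' := Nat.mul_pos hL hs'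
  have hss1 : (L * s) ≤ (L * s) * (L * s') := Nat.le_mul_of_pos_right _ hLs'
  have hpos : 1 ≤ (L * s) * (L * s') := Nat.mul_pos hLs hLs'
  have hD' : 90 * ((L * s) * (L * s')) ≤ Y.card := by rw [← mul_assoc]; exact hD
  have hYV : Y.card ≤ Fintype.card V := card_le_univ _
  have hmix : (univ.filter (fun u => Y.card ≤ 3 * bb G Y u)).card ≤ 12 * (L * s') := by
    have h1 := mixed_card (G := G) Y (2 * (L * s')) (by omega) (by
      intro y hy y' hy'
      rw [hY, DD, mem_filter] at hy hy'
      exact sdiff_nb_le' hL hcu hy'.2.1.symm hy'.2.2.1 hy.2.2.2 hy'.2.2.2)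
    omega
  obtain ⟨θ, hθ1, hθ2, hgap⟩ := gap Y (L * s) (L * s') hLs hLs' hD hmix
  set Mid := univ.filter (fun u => θ + L * s ≤ bb G Y u) with hMid
  have hMidcard : Mid.card ≤ 12 * (L * s') := by
    refine le_trans (card_le_card ?_) hmix
    intro u hu
    rw [hMid, mem_filter] at hu
    simp only [mem_filter, mem_univ, true_and]
    omega
  obtain ⟨f, hf⟩ := mid_colour' hL hcu Mid s s' hs hs' (le_trans hD hYV) hMidcard
  refine ⟨fun u => if u ∈ Mid then f u else decide (Y.card < 2 * (nb G u ∩ Y).card), ?_⟩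
  intro u v huv hna ht
  have e1 := bb_edge' hL hcu Y huv hna ht
  have e2 := bb_edge' hL hcu Y huv.symm (fun h => hna h.symm)
    (show t G v u ≤ s by rw [t_comm]; exact ht)
  have g1 := hgap u
  have g2 := hgap v
  have hm : ∀ w, w ∈ Mid ↔ θ + L * s ≤ bb G Y w := by
    intro w; rw [hMid, mem_filter]; simp
  by_cases hu : u ∈ Mid
  · have hv : v ∈ Mid := by
      rw [hm] at hu ⊢
      by_contra hcon
      apply g2
      omega
    simp only [hu, hv, if_true]
    exact hf u hu v hv huv hna ht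
  · have hv : v ∉ Mid := by
      rw [hm] at hu ⊢
      intro hcon
      apply g1
      omega
    simp only [hu, hv, if_false]
    rw [hm] at hu hv
    obtain ⟨a1, a2⟩ := adj_bounds' hL hcu Y huv hna ht
    have b1 := nbY_le (G := G) Y u
    have b2 := nbY_le (G := G) Y v
    have hbu : bb G Y u < θ := by
      by_contra hcon
      exact g1 ⟨by omega, by omega⟩
    unfold bb at hbu
    rcases lt_or_ge (nb G u ∩ Y).card θ with h | h
    · have h5 : ¬ Y.card < 2 * (nb G u ∩ Y).card := by omega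
      have h6 : Y.card < 2 * (nb G v ∩ Y).card := by omega
      simp [h5, h6]
    · have h7 : Y.card - (nb G u ∩ Y).card < θ := by omega
      have h5 : Y.card < 2 * (nb G u ∩ Y).card := by omega
      have h6 : ¬ Y.card < 2 * (nb G v ∩ Y).card := by omega
      simp [h5, h6]

/-- choice of the scale `S` -/
lemma scale_lemma' [Nonempty V] {L : ℕ} (hL : 1 ≤ L) (hcu : CU G L) (B : ℕ)
    (hB : 1 ≤ B) (htB : ∀ u v, u ≠ v → ¬ G.Adj u v → B ≤ t G u v) :
    ∃ (S : ℕ) (f : V → Bool), B ≤ S ∧
      (∀ u v, u ≠ v → ¬ G.Adj u v → t G u v < S → f u ≠ f v) ∧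
      (∀ x s, 1 ≤ s → (DD G x s).card ≤ 90 * L ^ 2 * s * S) := by
  classical
  let P : ℕ → Prop := fun s => ∃ (x : V) (s' : ℕ), 1 ≤ s' ∧
    90 * (L * s) * (L * s') ≤ (DD G x s').card
  have hP0 : P 0 := ⟨Classical.arbitrary V, 1, le_rfl, by simp⟩
  have hPb : ∀ s, P s → s ≤ Fintype.card V := by
    rintro s ⟨x, s', hs', h⟩
    have h1 : (DD G x s').card ≤ Fintype.card V := card_le_univ _
    have h2 : L * s ≤ (L * s) * (L * s') := Nat.le_mul_of_pos_right _ (Nat.mul_pos hL hs')
    have h3 : 90 * (L * s) * (L * s') = 90 * ((L * s) * (L * s')) := by ring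
    have h4 : s ≤ L * s := Nat.le_mul_of_pos_left _ hL
    omega
  set s1 := Nat.findGreatest P (Fintype.card V) with hs1
  have hPs1 : P s1 := Nat.findGreatest_spec (P := P) (Nat.zero_le _) hP0
  have hnot : ¬ P (s1 + 1) := by
    intro h
    have h1 := hPb _ h
    have h2 := Nat.le_findGreatest h1 h
    omega
  have hbound : ∀ x s, 1 ≤ s → (DD G x s).card ≤ 90 * L ^ 2 * s * (s1 + 1) := by
    intro x s hs
    by_contra hcon
    push Not at hcon
    apply hnot
    refine ⟨x, s, hs, ?_⟩
    calc 90 * (L * (s1 + 1)) * (L * s) = 90 * L ^ 2 * s * (s1 + 1) := by ring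
      _ ≤ _ := hcon.le
  have hf : ∃ f : V → Bool, ∀ u v, u ≠ v → ¬ G.Adj u v → t G u v ≤ s1 → f u ≠ f v := by
    rcases Nat.eq_zero_or_pos s1 with h0 | h0
    · refine ⟨fun _ => true, ?_⟩
      intro u v huv hadj ht
      have := htB u v huv hadj
      omega
    · obtain ⟨x, s', hs', h⟩ := hPs1
      obtain ⟨f, hf⟩ := structure_lemma' hL hcu s1 s' h0 hs' x h
      exact ⟨f, fun u v huv hna ht => hf u v huv hna ht⟩
  obtain ⟨f, hf⟩ := hf
  refine ⟨max (s1 + 1) B, f, le_max_right _ _, ?_, ?_⟩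
  · intro u v huv hadj ht
    have h1 := htB u v huv hadj
    apply hf u v huv hadj
    omega
  · intro x s hs
    refine (hbound x s hs).trans ?_
    exact Nat.mul_le_mul_left _ (le_max_left _ _)

end Pool.Agent.Y391.RB
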