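import Mathlib
import Pool.Agent.Helper208.Rainbow.Sum

set_option autoImplicit false

open Finset

namespace Pool.Agent.Y391.RB

open Pool.Agent.Helper208.Rainbow

lemma part2_sum' {V : Type*} (N : Finset V) (τ : V → ℕ) (S A : ℕ) (hS : 1 ≤ S)
    (hc : ∀ s, S ≤ s → (N.filter (fun y => τ y ≤ s)).card ≤ A * s * S) :
    ∑ y ∈ N.filter (fun y => S ≤ τ y), (1 : ℝ) / (τ y : ℝ) ^ 4 ≤ 64 * A / (S : ℝ) ^ 2 := by
  classical
  set M := 2 * (N.sup τ) with hM
  have hMy : ∀ y ∈ N, 2 * τ y ≤ M := by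
    intro y hy
    have := le_sup (f := τ) hy
    omega
  calc ∑ y ∈ N.filter (fun y => S ≤ τ y), (1 : ℝ) / (τ y : ℝ) ^ 4
      ≤ ∑ y ∈ N.filter (fun y => S ≤ τ y),
        32 * ∑ s ∈ Ico S M, (if τ y ≤ s then (1 : ℝ) / (s : ℝ) ^ 5 else 0) := by
        apply sum_le_sum
        intro y hy
        rw [mem_filter] at hy
        exact inv_fourth_le _ _ _ hS hy.2 (hMy y hy.1)
    _ = 32 * ∑ s ∈ Ico S M, ∑ y ∈ N.filter (fun y => S ≤ τ y),
        (if τ y ≤ s then (1 : ℝ) / (s : ℝ) ^ 5 else 0) := by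
        rw [← mul_sum, sum_comm]
    _ ≤ 32 * ∑ s ∈ Ico S M, A * ((1 : ℝ) / (s : ℝ) ^ 3) := by
        apply mul_le_mul_of_nonneg_left _ (by norm_num)
        apply sum_le_sum
        intro s hs
        rw [mem_Ico] at hs
        rw [← sum_filter, sum_const, nsmul_eq_mul]
        have h1 : (((N.filter (fun y => S ≤ τ y)).filter (fun y => τ y ≤ s)).card : ℝ) ≤
            A * s * s := by
          have h2 : ((N.filter (fun y => S ≤ τ y)).filter (fun y => τ y ≤ s)).card ≤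
              (N.filter (fun y => τ y ≤ s)).card := by
            apply card_le_card
            intro y hy
            simp only [mem_filter] at hy ⊢
            tauto
          have h3 := hc s hs.1
          have h4 : A * s * S ≤ A * s * s := Nat.mul_le_mul_left _ hs.1
          exact_mod_cast le_trans h2 (le_trans h3 h4)
        have hs0 : (0 : ℝ) < s := by
          have : 0 < s := by omega
          exact_mod_cast this
        calc (((N.filter (fun y => S ≤ τ y)).filter (fun y => τ y ≤ s)).card : ℝ) *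
              (1 / (s : ℝ) ^ 5) ≤ (A * s * s) * (1 / (s : ℝ) ^ 5) :=
              mul_le_mul_of_nonneg_right h1 (by positivity)
          _ = A * ((1 : ℝ) / (s : ℝ) ^ 3) := by
              field_simp
    _ = (32 * A) * ∑ s ∈ Ico S M, ((1 : ℝ) / (s : ℝ) ^ 3) := by
        rw [← mul_sum]; ring
    _ ≤ (32 * A) * (2 / (S : ℝ) ^ 2) :=
        mul_le_mul_of_nonneg_left (sum_inv_cube S M hS) (by positivity)
    _ = _ := by ring

/-- a numerical bound for the exponential function -/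
lemma exp_bound (r : ℕ) : Real.exp (-(25 + 3 / 2 * (r : ℝ))) ≤ 1 / 70000000000 * (1 / 4) ^ r := by
  have h1 : Real.exp (-(25 + 3 / 2 * (r : ℝ))) = Real.exp (-25) * Real.exp (-(3 / 2)) ^ r := by
    rw [← Real.exp_nat_mul, ← Real.exp_add]
    congr 1
    ring
  rw [h1]
  have h2 : (2.7182818283 : ℝ) < Real.exp 1 := Real.exp_one_gt_d9
  have h3 : (70000000000 : ℝ) ≤ Real.exp 25 := by
    have h4 : Real.exp 25 = Real.exp 1 ^ 25 := by
      rw [← Real.exp_nat_mul]; norm_num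
    rw [h4]
    calc (70000000000 : ℝ) ≤ 2.7182818283 ^ 25 := by norm_num
      _ ≤ Real.exp 1 ^ 25 := pow_le_pow_left₀ (by norm_num) h2.le 25
  have h5 : Real.exp (-25) ≤ 1 / 70000000000 := by
    rw [Real.exp_neg, ← one_div]
    exact one_div_le_one_div_of_le (by norm_num) h3
  have h6 : (4 : ℝ) ≤ Real.exp (3 / 2) := by
    have h7 : Real.exp (3 / 2) = Real.exp (1 / 2) ^ 3 := by
      rw [← Real.exp_nat_mul]; norm_num
    have h8 : (1 + 1 / 2 + (1 / 2) ^ 2 / 2 : ℝ) ≤ Real.exp (1 / 2) :=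
      Real.quadratic_le_exp_of_nonneg (by norm_num)
    rw [h7]
    calc (4 : ℝ) ≤ (1 + 1 / 2 + (1 / 2) ^ 2 / 2) ^ 3 := by norm_num
      _ ≤ Real.exp (1 / 2) ^ 3 := pow_le_pow_left₀ (by norm_num) h8 3
  have h9 : Real.exp (-(3 / 2)) ≤ 1 / 4 := by
    rw [Real.exp_neg, ← one_div]
    exact one_div_le_one_div_of_le (by norm_num) h6
  apply mul_le_mul h5 (pow_le_pow_left₀ (Real.exp_pos _).le h9 r) (by positivity) (by positivity)

/-- weight in the second range -/
lemma weight2' (q t r : ℕ) (hq : 100 + 6 * r ≤ q) (ht : q ^ 2 ≤ t) :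
    (1 - 1 / (2 * (q : ℝ))) ^ t ≤ 1 / 26 * (1 / 4) ^ r * (1 / (t : ℝ) ^ 4) := by
  have hqr : (100 : ℝ) + 6 * r ≤ q := by exact_mod_cast hq
  have hr0 : (0 : ℝ) ≤ r := by positivity
  have hq0 : (1 : ℝ) ≤ q := by linarith
  have htR : (q : ℝ) ^ 2 ≤ t := by exact_mod_cast ht
  have ht0 : (0 : ℝ) < t := lt_of_lt_of_le (by positivity) htR
  set v : ℝ := t / (4 * q) with hv
  have hv0 : 0 ≤ v := by positivity
  have h1 : (1 - 1 / (2 * (q : ℝ))) ^ t ≤ Real.exp (-v) * Real.exp (-v) := by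
    have h2 : 1 - 1 / (2 * (q : ℝ)) ≤ Real.exp (-(1 / (2 * (q : ℝ)))) := by
      have := Real.add_one_le_exp (-(1 / (2 * (q : ℝ))))
      linarith
    have h3 : 0 ≤ 1 - 1 / (2 * (q : ℝ)) := by
      rw [sub_nonneg, div_le_one (by positivity)]
      linarith
    calc (1 - 1 / (2 * (q : ℝ))) ^ t ≤ Real.exp (-(1 / (2 * (q : ℝ)))) ^ t :=
          pow_le_pow_left₀ h3 h2 t
      _ = Real.exp (-v) * Real.exp (-v) := by
          rw [← Real.exp_nat_mul, ← Real.exp_add]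
          congr 1
          rw [hv]; ring
  have h4 := Real.pow_div_factorial_le_exp v hv0 8
  have h5 : (t : ℝ) ^ 4 / 2642411520 ≤ v ^ 8 / (Nat.factorial 8 : ℝ) := by
    have h6 : v ^ 8 = (t : ℝ) ^ 8 / (65536 * (q : ℝ) ^ 8) := by
      rw [hv]; ring
    rw [h6]
    have h7 : (Nat.factorial 8 : ℝ) = 40320 := by norm_num [Nat.factorial]
    rw [h7, div_div, div_le_div_iff₀ (by norm_num) (by positivity)]
    have h8 : (q : ℝ) ^ 8 ≤ (t : ℝ) ^ 4 := by
      calc (q : ℝ) ^ 8 = ((q : ℝ) ^ 2) ^ 4 := by ring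
        _ ≤ (t : ℝ) ^ 4 := pow_le_pow_left₀ (by positivity) htR 4
    calc (t : ℝ) ^ 4 * (65536 * (q : ℝ) ^ 8 * 40320) = (2642411520 * (t : ℝ) ^ 4) * (q : ℝ) ^ 8 := by
          ring
      _ ≤ (2642411520 * (t : ℝ) ^ 4) * (t : ℝ) ^ 4 :=
          mul_le_mul_of_nonneg_left h8 (by positivity)
      _ = (t : ℝ) ^ 8 * 2642411520 := by ring
  have h9 : (t : ℝ) ^ 4 / 2642411520 ≤ Real.exp v := le_trans h5 h4
  have h10 : Real.exp (-v) ≤ 2642411520 * (1 / (t : ℝ) ^ 4) := by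
    rw [Real.exp_neg, mul_one_div]
    rw [inv_le_comm₀ (Real.exp_pos _) (by positivity), inv_div]
    exact h9
  have h11 : Real.exp (-v) ≤ 1 / 70000000000 * (1 / 4) ^ r := by
    refine le_trans ?_ (exp_bound r)
    apply Real.exp_le_exp.mpr
    have h12 : (q : ℝ) / 4 ≤ v := by
      rw [hv, div_le_div_iff₀ (by norm_num) (by positivity)]
      nlinarith
    linarith
  calc (1 - 1 / (2 * (q : ℝ))) ^ t ≤ Real.exp (-v) * Real.exp (-v) := h1
    _ ≤ (1 / 70000000000 * (1 / 4) ^ r) * (2642411520 * (1 / (t : ℝ) ^ 4)) :=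
        mul_le_mul h11 h10 (Real.exp_pos _).le (by positivity)
    _ = (2642411520 / 70000000000) * ((1 / 4) ^ r * (1 / (t : ℝ) ^ 4)) := by ring
    _ ≤ (1 / 26) * ((1 / 4) ^ r * (1 / (t : ℝ) ^ 4)) :=
        mul_le_mul_of_nonneg_right (by norm_num) (by positivity)
    _ = _ := by ring

/-- total weight at a vertex, large scale -/
lemma total_weight' {V : Type*} (N : Finset V) (τ : V → ℕ) (S q r : ℕ) (hq : 100 + 6 * r ≤ q)
    (hqS : q ^ 2 ≤ S) (hSq : S < (q + 1) ^ 2) (h12 : ∀ y ∈ N, 16 + r ≤ τ y)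
    (hc : ∀ s, 1 ≤ s → (N.filter (fun y => τ y ≤ s)).card ≤ (90 * 4 ^ r) * s * S) :
    ∑ y ∈ N, (if τ y < S then (8 / (q : ℝ)) ^ (τ y) else (1 - 1 / (2 * (q : ℝ))) ^ (τ y)) ≤
      1 / (64 * (q : ℝ)) := by
  classical
  have hqN : 100 ≤ q := by omega
  have hqR : (100 : ℝ) ≤ q := by exact_mod_cast hqN
  have hq0 : (0 : ℝ) < q := by linarith
  have hqSR : (q : ℝ) ^ 2 ≤ S := by exact_mod_cast hqS
  have hSqR : (S : ℝ) ≤ 4 * (q : ℝ) ^ 2 := by
    have h1 : S ≤ 4 * q ^ 2 := by nlinarith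
    exact_mod_cast h1
  have hS1 : 1 ≤ S := by nlinarith
  have hS0 : (0 : ℝ) < S := by exact_mod_cast hS1
  rw [← sum_filter_add_sum_filter_not N (fun y => τ y < S)]
  have hp1 : ∑ y ∈ N.filter (fun y => τ y < S),
      (if τ y < S then (8 / (q : ℝ)) ^ (τ y) else (1 - 1 / (2 * (q : ℝ))) ^ (τ y)) ≤
      1 / (128 * (q : ℝ)) := by
    calc ∑ y ∈ N.filter (fun y => τ y < S),
        (if τ y < S then (8 / (q : ℝ)) ^ (τ y) else (1 - 1 / (2 * (q : ℝ))) ^ (τ y))
        ≤ ∑ y ∈ N.filter (fun y => τ y < S), (8 / (q : ℝ)) ^ (16 + r) := by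
          apply sum_le_sum
          intro y hy
          rw [mem_filter] at hy
          rw [if_pos hy.2]
          apply pow_le_pow_of_le_one (by positivity) _ (h12 y hy.1)
          rw [div_le_one hq0]; linarith
      _ = ((N.filter (fun y => τ y < S)).card : ℝ) * (8 / (q : ℝ)) ^ (16 + r) := by
          rw [sum_const, nsmul_eq_mul]
      _ ≤ (90 * 4 ^ r * S * S) * (8 / (q : ℝ)) ^ (16 + r) := by
          apply mul_le_mul_of_nonneg_right _ (by positivity)
          have h1 : (N.filter (fun y => τ y < S)).card ≤ (N.filter (fun y => τ y ≤ S)).card := by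
            apply card_le_card
            intro y hy
            simp only [mem_filter] at hy ⊢
            exact ⟨hy.1, hy.2.le⟩
          exact_mod_cast le_trans h1 (hc S hS1)
      _ = (90 * (S * S)) * (8 / (q : ℝ)) ^ 16 * (4 * (8 / (q : ℝ))) ^ r := by
          rw [mul_pow, pow_add]; ring
      _ ≤ (90 * (S * S)) * (8 / (q : ℝ)) ^ 16 * 1 := by
          apply mul_le_mul_of_nonneg_left _ (by positivity)
          apply pow_le_one₀ (by positivity)
          rw [mul_div_assoc', div_le_one hq0]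
          linarith
      _ = (90 * (S * S)) * (8 / (q : ℝ)) ^ 16 := mul_one _
      _ ≤ (1440 * (q : ℝ) ^ 4) * (8 / (q : ℝ)) ^ 16 := by
          apply mul_le_mul_of_nonneg_right _ (by positivity)
          have h2 : (S : ℝ) * S ≤ (4 * (q : ℝ) ^ 2) * (4 * (q : ℝ) ^ 2) :=
            mul_le_mul hSqR hSqR hS0.le (by positivity)
          nlinarith
      _ = (1440 * 8 ^ 16) / (q : ℝ) ^ 12 := by
          field_simp
      _ ≤ 1 / (128 * (q : ℝ)) := by
          rw [div_le_div_iff₀ (by positivity) (by positivity)]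
          have h3 : (100 : ℝ) ^ 11 ≤ (q : ℝ) ^ 11 := pow_le_pow_left₀ (by norm_num) hqR 11
          calc (1440 * 8 ^ 16 : ℝ) * (128 * (q : ℝ)) = (1440 * 8 ^ 16 * 128) * (q : ℝ) := by ring
            _ ≤ (100 : ℝ) ^ 11 * (q : ℝ) := by
                apply mul_le_mul_of_nonneg_right _ hq0.le
                norm_num
            _ ≤ (q : ℝ) ^ 11 * (q : ℝ) := mul_le_mul_of_nonneg_right h3 hq0.le
            _ = 1 * (q : ℝ) ^ 12 := by ring
  have hp2 : ∑ y ∈ N.filter (fun y => ¬ τ y < S),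
      (if τ y < S then (8 / (q : ℝ)) ^ (τ y) else (1 - 1 / (2 * (q : ℝ))) ^ (τ y)) ≤
      1 / (128 * (q : ℝ)) := by
    calc ∑ y ∈ N.filter (fun y => ¬ τ y < S),
        (if τ y < S then (8 / (q : ℝ)) ^ (τ y) else (1 - 1 / (2 * (q : ℝ))) ^ (τ y))
        ≤ ∑ y ∈ N.filter (fun y => S ≤ τ y), 1 / 26 * (1 / 4) ^ r * (1 / (τ y : ℝ) ^ 4) := by
          have h0 : N.filter (fun y => ¬ τ y < S) = N.filter (fun y => S ≤ τ y) := by
            ext y; simp
          rw [h0]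
          apply sum_le_sum
          intro y hy
          rw [mem_filter] at hy
          rw [if_neg (by omega)]
          exact weight2' q (τ y) r hq (le_trans hqS hy.2)
      _ = 1 / 26 * (1 / 4) ^ r * ∑ y ∈ N.filter (fun y => S ≤ τ y), (1 / (τ y : ℝ) ^ 4) := by
          rw [mul_sum]
      _ ≤ 1 / 26 * (1 / 4) ^ r * (64 * ((90 * 4 ^ r : ℕ) : ℝ) / (S : ℝ) ^ 2) := by
          apply mul_le_mul_of_nonneg_left _ (by positivity)
          exact part2_sum' N τ S (90 * 4 ^ r) hS1 (fun s hs => hc s (le_trans hS1 hs))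
      _ = (5760 / 26) * (((1 / 4) ^ r * 4 ^ r) / (S : ℝ) ^ 2) := by
          push_cast; ring
      _ = (5760 / 26) * (1 / (S : ℝ) ^ 2) := by
          rw [← mul_pow]; norm_num
      _ ≤ (5760 / 26) * (1 / ((q : ℝ) ^ 2) ^ 2) := by
          apply mul_le_mul_of_nonneg_left _ (by norm_num)
          apply div_le_div_of_nonneg_left (by norm_num) (by positivity)
          exact pow_le_pow_left₀ (by positivity) hqSR 2
      _ = (5760 / 26) / (q : ℝ) ^ 4 := by
          field_simp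
      _ ≤ 1 / (128 * (q : ℝ)) := by
          rw [div_le_div_iff₀ (by positivity) (by positivity)]
          have h3 : (100 : ℝ) ^ 3 ≤ (q : ℝ) ^ 3 := pow_le_pow_left₀ (by norm_num) hqR 3
          calc (5760 / 26 : ℝ) * (128 * (q : ℝ)) = (5760 / 26 * 128) * (q : ℝ) := by
                ring
            _ ≤ (100 : ℝ) ^ 3 * (q : ℝ) := by
                apply mul_le_mul_of_nonneg_right _ hq0.le
                norm_num
            _ ≤ (q : ℝ) ^ 3 * (q : ℝ) := mul_le_mul_of_nonneg_right h3 hq0.le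
            _ = 1 * (q : ℝ) ^ 4 := by ring
  have : 1 / (64 * (q : ℝ)) = 1 / (128 * (q : ℝ)) + 1 / (128 * (q : ℝ)) := by
    field_simp; norm_num
  rw [this]
  exact add_le_add hp1 hp2

lemma geo_aux (a : ℝ) (ha1 : a < 1) (B M : ℕ) (hM : B ≤ M) :
    (M : ℝ) * a ^ M + (1 - a) * ∑ s ∈ Ico B M, (s : ℝ) * a ^ s =
      a ^ B * (B + a / (1 - a)) - a ^ (M + 1) / (1 - a) := by
  have h0 : (1 - a) ≠ 0 := by linarith
  induction M, hM using Nat.le_induction with
  | base =>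
    simp only [Ico_self, sum_empty, mul_zero, add_zero]
    field_simp
    ring
  | succ M hM ih =>
    rw [sum_Ico_succ_top hM, mul_add]
    have h1 : (1 - a) * ∑ s ∈ Ico B M, (s : ℝ) * a ^ s =
        a ^ B * (B + a / (1 - a)) - a ^ (M + 1) / (1 - a) - (M : ℝ) * a ^ M := by linarith
    rw [h1]
    push_cast
    field_simp
    ring

/-- a sum of powers controlled by the counting function of the exponents -/
lemma geo_sum {V : Type*} (N : Finset V) (τ : V → ℕ) (B : ℕ) (A a : ℝ) (hA : 0 ≤ A)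
    (ha : 0 ≤ a) (ha1 : a < 1) (hB : ∀ y ∈ N, B ≤ τ y)
    (hc : ∀ s : ℕ, B ≤ s → ((N.filter (fun y => τ y ≤ s)).card : ℝ) ≤ A * s) :
    ∑ y ∈ N, a ^ (τ y) ≤ A * (a ^ B * (B + a / (1 - a))) := by
  classical
  have h0 : 0 < 1 - a := by linarith
  set M := max B (N.sup τ) with hM
  have hMy : ∀ y ∈ N, τ y ≤ M := fun y hy => le_trans (le_sup (f := τ) hy) (le_max_right _ _)
  have hBM : B ≤ M := le_max_left _ _
  have hpow : ∀ y ∈ N, a ^ (τ y) = a ^ M + (1 - a) *
      ∑ s ∈ Ico B M, (if τ y ≤ s then a ^ s else 0) := by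
    intro y hy
    have h1 : ∑ s ∈ Ico B M, (if τ y ≤ s then a ^ s else 0) = ∑ s ∈ Ico (τ y) M, a ^ s := by
      rw [← sum_filter]
      apply sum_congr _ (fun _ _ => rfl)
      ext s
      simp only [mem_filter, mem_Ico]
      have := hB y hy
      constructor
      · rintro ⟨⟨h1, h2⟩, h3⟩; exact ⟨h3, h2⟩
      · rintro ⟨h1, h2⟩; exact ⟨⟨by omega, h2⟩, h1⟩
    rw [h1]
    have h2 := geom_sum_Ico_mul a (hMy y hy)
    linarith
  calc ∑ y ∈ N, a ^ (τ y)
      = ∑ y ∈ N, (a ^ M + (1 - a) * ∑ s ∈ Ico B M, (if τ y ≤ s then a ^ s else 0)) :=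
        sum_congr rfl hpow
    _ = N.card * a ^ M + (1 - a) * ∑ s ∈ Ico B M, ∑ y ∈ N, (if τ y ≤ s then a ^ s else 0) := by
        rw [sum_add_distrib, sum_const, nsmul_eq_mul, ← mul_sum, sum_comm]
    _ ≤ (A * M) * a ^ M + (1 - a) * ∑ s ∈ Ico B M, A * (s * a ^ s) := by
        apply add_le_add
        · apply mul_le_mul_of_nonneg_right _ (by positivity)
          have h1 := hc M hBM
          have h2 : N.filter (fun y => τ y ≤ M) = N := by
            rw [filter_eq_self]; exact hMy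
          rwa [h2] at h1
        · apply mul_le_mul_of_nonneg_left _ h0.le
          apply sum_le_sum
          intro s hs
          rw [mem_Ico] at hs
          rw [← sum_filter, sum_const, nsmul_eq_mul, ← mul_assoc]
          exact mul_le_mul_of_nonneg_right (hc s hs.1) (by positivity)
    _ = A * ((M : ℝ) * a ^ M + (1 - a) * ∑ s ∈ Ico B M, (s : ℝ) * a ^ s) := by
        rw [← mul_sum]; ring
    _ = A * (a ^ B * (B + a / (1 - a)) - a ^ (M + 1) / (1 - a)) := by
        rw [geo_aux a ha1 B M hBM]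
    _ ≤ A * (a ^ B * (B + a / (1 - a))) := by
        apply mul_le_mul_of_nonneg_left _ hA
        have : 0 ≤ a ^ (M + 1) / (1 - a) := by positivity
        linarith

lemma num_plain (r : ℕ) : (90 * 4 ^ r * (100 + 6 * (r : ℝ)) ^ 2) *
    ((13 / 25 : ℝ) ^ (36 + 3 * r) * (((36 + 3 * r : ℕ) : ℝ) + (13 / 25) / (1 - 13 / 25))) ≤
      1 / 416 := by
  have key : ∀ r : ℕ, (4 : ℝ) ^ r * (13 / 25 : ℝ) ^ (3 * r) * ((100 + 6 * (r : ℝ)) ^ 2 *
      (36 + 3 * (r : ℝ) + 13 / 12)) ≤ 370834 := by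
    intro r
    induction r with
    | zero => norm_num
    | succ r ih =>
      refine le_trans ?_ ih
      have e1 : (4 : ℝ) ^ (r + 1) * (13 / 25 : ℝ) ^ (3 * (r + 1)) =
          (4 : ℝ) ^ r * (13 / 25 : ℝ) ^ (3 * r) * (4 * (13 / 25) ^ 3) := by
        rw [mul_add, pow_add, pow_add]; ring
      rw [e1, mul_assoc]
      apply mul_le_mul_of_nonneg_left _ (by positivity)
      push_cast
      have hr0 : (0 : ℝ) ≤ r := by positivity
      have h1 : 0 ≤ (r : ℝ) ^ 2 := by positivity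
      have h2 : 0 ≤ (r : ℝ) ^ 3 := by positivity
      nlinarith
  have h := key r
  have e2 : (90 * 4 ^ r * (100 + 6 * (r : ℝ)) ^ 2) *
    ((13 / 25 : ℝ) ^ (36 + 3 * r) * (((36 + 3 * r : ℕ) : ℝ) + (13 / 25) / (1 - 13 / 25))) =
      (90 * (13 / 25) ^ 36) * ((4 : ℝ) ^ r * (13 / 25 : ℝ) ^ (3 * r) * ((100 + 6 * (r : ℝ)) ^ 2 *
      (36 + 3 * (r : ℝ) + 13 / 12))) := by
    rw [pow_add]
    push_cast
    ring
  rw [e2]
  calc (90 * (13 / 25 : ℝ) ^ 36) * ((4 : ℝ) ^ r * (13 / 25 : ℝ) ^ (3 * r) *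
        ((100 + 6 * (r : ℝ)) ^ 2 * (36 + 3 * (r : ℝ) + 13 / 12)))
      ≤ (90 * (13 / 25 : ℝ) ^ 36) * 370834 := mul_le_mul_of_nonneg_left h (by positivity)
    _ ≤ 1 / 416 := by norm_num

/-- total weight at a vertex, small scale -/
lemma plain_weight {V : Type*} (N : Finset V) (τ : V → ℕ) (S r : ℕ)
    (hS : S ≤ (100 + 6 * r) ^ 2) (hB : ∀ y ∈ N, 36 + 3 * r ≤ τ y)
    (hc : ∀ s, 1 ≤ s → (N.filter (fun y => τ y ≤ s)).card ≤ (90 * 4 ^ r) * s * S) :
    ∑ y ∈ N, (13 / 25 : ℝ) ^ (τ y) ≤ 1 / 416 := by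
  have hSR : (S : ℝ) ≤ (100 + 6 * (r : ℝ)) ^ 2 := by exact_mod_cast hS
  refine le_trans (geo_sum N τ (36 + 3 * r) (90 * 4 ^ r * (100 + 6 * (r : ℝ)) ^ 2) (13 / 25)
    (by positivity) (by norm_num) (by norm_num) hB ?_) (num_plain r)
  intro s hs
  have h1 := hc s (by omega)
  have h2 : ((N.filter (fun y => τ y ≤ s)).card : ℝ) ≤ (90 * 4 ^ r) * s * S := by
    exact_mod_cast h1
  refine le_trans h2 ?_
  have h3 : (90 * 4 ^ r : ℝ) * s * S = (90 * 4 ^ r * s) * S := by ring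
  have h4 : (90 * 4 ^ r : ℝ) * (100 + 6 * (r : ℝ)) ^ 2 * s =
    (90 * 4 ^ r * s) * (100 + 6 * (r : ℝ)) ^ 2 := by ring
  rw [h3, h4]
  exact mul_le_mul_of_nonneg_left hSR (by positivity)

end Pool.Agent.Y391.RB
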