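import Mathlib
import Pool.Agent.Y391.RB.Struct
import Pool.Agent.Y391.RB.Sum

set_option autoImplicit false

open Finset

namespace Pool.Agent.Y391.RB

open Pool.Agent.Helper208.Rainbow

variable {V : Type*} [Fintype V] [DecidableEq V] {G : SimpleGraph V} [DecidableRel G.Adj]

/-- sum of the weights at an edge, for a general symmetric weight function on pairs -/
lemma edge_sum (w : V × V → ℝ) (hnn : ∀ p, 0 ≤ w p) (hsymm : ∀ a b, w (a, b) = w (b, a))
    (Z0 : ℝ) (hZ : ∀ x, ∑ y, w (x, y) ≤ Z0) (e : Sym2 V) :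
    ∑ p ∈ univ.filter (fun p => e ∈ FF G p), w p ≤ 4 * Z0 := by
  induction e using Sym2.ind with
  | _ a b =>
    have h1 : univ.filter (fun p => s(a, b) ∈ FF G p) ⊆
        ((univ.image (fun y => ((a, y) : V × V))) ∪ (univ.image (fun y => ((b, y) : V × V)))) ∪
        ((univ.image (fun y => ((y, a) : V × V))) ∪ (univ.image (fun y => ((y, b) : V × V)))) := by
      rintro ⟨u, v⟩ hp
      simp only [mem_filter, mem_univ, true_and, FF] at hp
      split_ifs at hp with hc
      · simp only [mem_union, mem_image] at hp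
        simp only [mem_union, mem_image, mem_univ, true_and, Prod.mk.injEq, exists_eq_right]
        rcases hp with ⟨w, -, hw⟩ | ⟨w, -, hw⟩
        · rw [Sym2.eq_iff] at hw
          rcases hw with hw | hw
          · left; left; exact hw.1.symm
          · left; right; exact hw.1.symm
        · rw [Sym2.eq_iff] at hw
          rcases hw with hw | hw
          · right; left; exact ⟨u, rfl, hw.1.symm⟩
          · right; right; exact ⟨u, rfl, hw.1.symm⟩
      · simp at hp
    have hun : ∀ A B : Finset (V × V), ∑ p ∈ A ∪ B, w p ≤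
        ∑ p ∈ A, w p + ∑ p ∈ B, w p := by
      intro A B
      rw [← sum_union_inter]
      have : 0 ≤ ∑ p ∈ A ∩ B, w p := sum_nonneg fun p _ => hnn p
      linarith
    have hl : ∀ c : V, ∑ p ∈ univ.image (fun y => ((c, y) : V × V)), w p ≤ Z0 := by
      intro c
      rw [sum_image (by intro x _ y _ h; simpa using h)]
      exact hZ c
    have hr : ∀ c : V, ∑ p ∈ univ.image (fun y => ((y, c) : V × V)), w p ≤ Z0 := by
      intro c
      rw [sum_image (by intro x _ y _ h; simpa using h)]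
      simp_rw [hsymm _ c]
      exact hZ c
    refine le_trans (sum_le_sum_of_subset_of_nonneg h1 (fun p _ _ => hnn p)) ?_
    refine le_trans (hun _ _) ?_
    have h2 := hun (univ.image (fun y => ((a, y) : V × V))) (univ.image (fun y => ((b, y) : V × V)))
    have h3 := hun (univ.image (fun y => ((y, a) : V × V))) (univ.image (fun y => ((y, b) : V × V)))
    have := hl a
    have := hl b
    have := hr a
    have := hr b
    linarith

/-- numerical comparison of the probability of a bad event with its weight -/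
lemma weight_ok' (q t S R : ℕ) (hq : 100 ≤ q)
    (hR : (t < S ∧ R = 2 * (q - 1)) ∨ (¬ t < S ∧ R = 2 * (q - 1)) ∨
      (¬ t < S ∧ R + 2 * (q - 1) = q ^ 2)) :
    ((R : ℝ) / (q : ℝ) ^ 2) ^ t ≤
      (if t < S then (8 / (q : ℝ)) ^ t else (1 - 1 / (2 * (q : ℝ))) ^ t) *
        Real.exp (-((t : ℝ) / (4 * q))) := by
  have hqR : (100 : ℝ) ≤ q := by exact_mod_cast hq
  have hq0 : (0 : ℝ) < q := by linarith
  have hq1 : ((q - 1 : ℕ) : ℝ) = (q : ℝ) - 1 := by
    rw [Nat.cast_sub (by omega)]; simp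
  have hexp : (1 - 1 / (4 * (q : ℝ))) ^ t ≤ Real.exp (-((t : ℝ) / (4 * q))) := by
    have h1 := Real.add_one_le_exp (-(1 / (4 * (q : ℝ))))
    have h3 : 0 ≤ 1 - 1 / (4 * (q : ℝ)) := by
      rw [sub_nonneg, div_le_one (by positivity)]
      linarith
    calc (1 - 1 / (4 * (q : ℝ))) ^ t ≤ Real.exp (-(1 / (4 * (q : ℝ)))) ^ t :=
          pow_le_pow_left₀ h3 (by linarith) t
      _ = Real.exp (-((t : ℝ) / (4 * q))) := by
          rw [← Real.exp_nat_mul]
          congr 1
          ring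
  have hsmall : 1 / (4 * (q : ℝ)) ≤ 1 / 2 := by
    apply one_div_le_one_div_of_le (by norm_num)
    linarith
  have hsmall0 : 0 ≤ 1 / (4 * (q : ℝ)) := by positivity
  have hsmall2 : 1 / (2 * (q : ℝ)) ≤ 1 / 2 := by
    apply one_div_le_one_div_of_le (by norm_num)
    linarith
  have hsmall20 : 0 ≤ 1 / (2 * (q : ℝ)) := by positivity
  have hR0 : (0 : ℝ) ≤ (R : ℝ) / (q : ℝ) ^ 2 := by positivity
  have hRa : R = 2 * (q - 1) → (R : ℝ) / (q : ℝ) ^ 2 ≤ 2 / q := by
    intro h
    rw [h]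
    push_cast
    rw [hq1, div_le_div_iff₀ (by positivity) hq0]
    nlinarith
  have hRb : R + 2 * (q - 1) = q ^ 2 → (R : ℝ) / (q : ℝ) ^ 2 ≤ 1 - 3 / (2 * q) := by
    intro h
    have h1 : (R : ℝ) + 2 * ((q : ℝ) - 1) = (q : ℝ) ^ 2 := by
      rw [← hq1]; exact_mod_cast h
    have h2 : (R : ℝ) = (q : ℝ) ^ 2 - 2 * ((q : ℝ) - 1) := by linarith
    rw [h2, div_le_iff₀ (by positivity)]
    have h3 : (1 - 3 / (2 * (q : ℝ))) * (q : ℝ) ^ 2 = (q : ℝ) ^ 2 - 3 / 2 * q := by
      field_simp
    rw [h3]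
    linarith
  have hlarge : (1 : ℝ) - 3 / (4 * q) ≤ (1 - 1 / (2 * (q : ℝ))) * (1 - 1 / (4 * (q : ℝ))) := by
    have h1 : 3 / (4 * (q : ℝ)) = 1 / (2 * (q : ℝ)) + 1 / (4 * (q : ℝ)) := by
      field_simp; norm_num
    rw [h1]
    nlinarith [mul_nonneg hsmall20 hsmall0]
  have h34 : (1 : ℝ) - 3 / (2 * q) ≤ 1 - 3 / (4 * q) := by
    have : 3 / (4 * (q : ℝ)) ≤ 3 / (2 * (q : ℝ)) := by
      apply div_le_div_of_nonneg_left (by norm_num) (by positivity)
      linarith
    linarith
  rcases hR with ⟨h1, h2⟩ | ⟨h1, h2⟩ | ⟨h1, h2⟩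
  · rw [if_pos h1]
    calc ((R : ℝ) / (q : ℝ) ^ 2) ^ t ≤ ((8 / (q : ℝ)) * (1 - 1 / (4 * (q : ℝ)))) ^ t := by
          apply pow_le_pow_left₀ hR0
          refine le_trans (hRa h2) ?_
          have h8 : 2 / (q : ℝ) = (8 / (q : ℝ)) * (1 / 4) := by ring
          rw [h8]
          apply mul_le_mul_of_nonneg_left _ (by positivity)
          linarith
      _ = (8 / (q : ℝ)) ^ t * (1 - 1 / (4 * (q : ℝ))) ^ t := mul_pow _ _ _
      _ ≤ _ := mul_le_mul_of_nonneg_left hexp (by positivity)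
  · rw [if_neg h1]
    have h5 : 0 ≤ 1 - 1 / (2 * (q : ℝ)) := by linarith
    calc ((R : ℝ) / (q : ℝ) ^ 2) ^ t ≤
          ((1 - 1 / (2 * (q : ℝ))) * (1 - 1 / (4 * (q : ℝ)))) ^ t := by
          apply pow_le_pow_left₀ hR0
          refine le_trans (hRa h2) ?_
          refine le_trans ?_ hlarge
          have h6 : 2 / (q : ℝ) ≤ 1 / 4 := by
            rw [div_le_div_iff₀ hq0 (by norm_num)]; linarith
          have h7 : 3 / (4 * (q : ℝ)) ≤ 1 / 4 := by
            rw [div_le_div_iff₀ (by positivity) (by norm_num)]; linarith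
          linarith
      _ = (1 - 1 / (2 * (q : ℝ))) ^ t * (1 - 1 / (4 * (q : ℝ))) ^ t := mul_pow _ _ _
      _ ≤ _ := mul_le_mul_of_nonneg_left hexp (by positivity)
  · rw [if_neg h1]
    have h5 : 0 ≤ 1 - 1 / (2 * (q : ℝ)) := by linarith
    calc ((R : ℝ) / (q : ℝ) ^ 2) ^ t ≤
          ((1 - 1 / (2 * (q : ℝ))) * (1 - 1 / (4 * (q : ℝ)))) ^ t := by
          apply pow_le_pow_left₀ hR0
          exact le_trans (hRb h2) (le_trans h34 hlarge)
      _ = (1 - 1 / (2 * (q : ℝ))) ^ t * (1 - 1 / (4 * (q : ℝ))) ^ t := mul_pow _ _ _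
      _ ≤ _ := mul_le_mul_of_nonneg_left hexp (by positivity)

/-- weights are at most one half -/
lemma XX_le_half' (S q : ℕ) (hq : 100 ≤ q) (hqS : q ^ 2 ≤ S)
    (h12 : ∀ u v, u ≠ v → ¬ G.Adj u v → 1 ≤ t G u v) (p : V × V) : XX G S q p ≤ 1 / 2 := by
  have hqR : (100 : ℝ) ≤ q := by exact_mod_cast hq
  have hq0 : (0 : ℝ) < q := by linarith
  unfold XX
  split_ifs with hc ht
  · have h1 := h12 p.1 p.2 hc.1 hc.2
    calc (8 / (q : ℝ)) ^ (t G p.1 p.2) ≤ (8 / (q : ℝ)) ^ 1 := by
          apply pow_le_pow_of_le_one (by positivity) _ (by omega)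
          rw [div_le_one hq0]; linarith
      _ ≤ 1 / 2 := by
          rw [pow_one, div_le_div_iff₀ hq0 (by norm_num)]; linarith
  · have h1 := weight2' q (t G p.1 p.2) 0 (by omega) (by omega)
    refine le_trans h1 ?_
    have h2 : (1 : ℝ) ≤ t G p.1 p.2 := by exact_mod_cast h12 p.1 p.2 hc.1 hc.2
    have h3 : (1 : ℝ) ≤ (t G p.1 p.2 : ℝ) ^ 4 := one_le_pow₀ h2
    have h4 : 1 / (t G p.1 p.2 : ℝ) ^ 4 ≤ 1 := by
      rw [div_le_one (by linarith)]; exact h3
    rw [pow_zero, mul_one]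
    linarith
  · norm_num

/-- sum of the weights at a vertex -/
lemma XX_sum' (S q r : ℕ) (hq : 100 + 6 * r ≤ q) (hqS : q ^ 2 ≤ S) (hSq : S < (q + 1) ^ 2)
    (h12 : ∀ u v, u ≠ v → ¬ G.Adj u v → 16 + r ≤ t G u v)
    (hD : ∀ x s, 1 ≤ s → (DD G x s).card ≤ (90 * 4 ^ r) * s * S) (x : V) :
    ∑ y, XX G S q (x, y) ≤ 1 / (64 * (q : ℝ)) := by
  have h1 := total_weight' (univ.filter (fun y => x ≠ y ∧ ¬ G.Adj x y)) (fun y => t G x y) S q r hq
    hqS hSq (by
      intro y hy
      simp only [mem_filter, mem_univ, true_and] at hy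
      exact h12 x y hy.1 hy.2) (by
      intro s hs
      refine le_trans (card_le_card ?_) (hD x s hs)
      intro y hy
      simp only [mem_filter, mem_univ, true_and, DD] at hy ⊢
      exact ⟨hy.1.1.symm, hy.1.2, hy.2⟩)
  rw [sum_filter] at h1
  exact h1

/-- the colouring obtained from an assignment avoiding all bad events -/
lemma colouring_of_avoid (f : V → Bool) (q : ℕ) [NeZero q] (ω : Sym2 V → Fin q)
    (hω : ∀ p, ω ∉ EV G f q p) :
    ∃ col : Sym2 V → Bool, ∀ u v, u ≠ v → ¬ G.Adj u v →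
      ∃ w, G.Adj u w ∧ G.Adj v w ∧ col s(u, w) ≠ col s(v, w) := by
  refine ⟨fun e => xor (Sym2.lift ⟨fun a b => xor (f a) (f b), fun a b => Bool.xor_comm _ _⟩ e)
    (decide (ω e = 0)), ?_⟩
  intro u v huv hadj
  have h1 := hω (u, v)
  unfold EV at h1
  rw [if_pos ⟨huv, hadj⟩] at h1
  simp only [mem_filter, mem_univ, true_and, not_forall] at h1
  obtain ⟨w, hw, h2⟩ := h1
  have hw' : G.Adj u w ∧ G.Adj v w := by simpa [W] using hw
  refine ⟨w, hw'.1, hw'.2, ?_⟩
  simp only [RR, mem_filter, mem_univ, true_and] at h2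
  simp only [Sym2.lift_mk]
  intro h3
  apply h2
  revert h3
  generalize decide (ω s(u, w) = 0) = x
  generalize decide (ω s(v, w) = 0) = y
  cases f u <;> cases f v <;> cases f w <;> cases x <;> cases y <;> simp

lemma EV_card_real (f : V → Bool) (q : ℕ) [NeZero q] (p : V × V)
    (hc : p.1 ≠ p.2 ∧ ¬ G.Adj p.1 p.2) :
    ((EV G f q p).card : ℝ) =
      (((RR q (f p.1) (f p.2)).card : ℝ) / (q : ℝ) ^ 2) ^ (t G p.1 p.2) *
        Fintype.card (Sym2 V → Fin q) := by
  have hcard := EV_card f q p hc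
  have hq0 : (0 : ℝ) < q := by
    have := NeZero.pos q
    exact_mod_cast this
  have hcardR : ((EV G f q p).card : ℝ) * ((q : ℝ) ^ 2) ^ (t G p.1 p.2) =
      ((RR q (f p.1) (f p.2)).card : ℝ) ^ (t G p.1 p.2) * Fintype.card (Sym2 V → Fin q) := by
    exact_mod_cast hcard
  rw [div_pow, div_mul_eq_mul_div, ← hcardR, mul_div_assoc, div_self (by positivity), mul_one]

/-- large scale -/
lemma colour_large [Nonempty V] (r S : ℕ) (f : V → Bool) (hS : (100 + 6 * r) ^ 2 ≤ S)
    (hB : ∀ u v, u ≠ v → ¬ G.Adj u v → 16 + r ≤ t G u v)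
    (hf : ∀ u v, u ≠ v → ¬ G.Adj u v → t G u v < S → f u ≠ f v)
    (hD : ∀ x s, 1 ≤ s → (DD G x s).card ≤ (90 * 4 ^ r) * s * S) :
    ∃ col : Sym2 V → Bool, ∀ u v, u ≠ v → ¬ G.Adj u v →
      ∃ w, G.Adj u w ∧ G.Adj v w ∧ col s(u, w) ≠ col s(v, w) := by
  classical
  set q := Nat.sqrt S with hqd
  have hqS : q ^ 2 ≤ S := by rw [pow_two]; exact Nat.sqrt_le S
  have hSq : S < (q + 1) ^ 2 := Nat.lt_succ_sqrt' S
  have hqr : 100 + 6 * r ≤ q := by
    rw [hqd, Nat.le_sqrt']
    exact hS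
  have hq : 100 ≤ q := by omega
  haveI : NeZero q := ⟨by omega⟩
  have hqR : (100 : ℝ) ≤ q := by exact_mod_cast hq
  have hq0 : (0 : ℝ) < q := by linarith
  obtain ⟨ω, hω⟩ := lll_exp (κ := Sym2 V) (α := Fin q) (EV G f q) (FF G) (EV_dep f q)
    (XX G S q) (XX_nonneg S q (by omega)) (XX_le_half' S q hq hqS (fun u v h1 h2 => by
      have := hB u v h1 h2
      omega))
    (4 * (1 / (64 * (q : ℝ))))
    (edge_sum _ (XX_nonneg S q (by omega)) (XX_symm S q) _ (XX_sum' S q r hqr hqS hSq hB hD)) (by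
      intro p
      by_cases hc : p.1 ≠ p.2 ∧ ¬ G.Adj p.1 p.2
      · have hF := FF_card p hc
        rw [EV_card_real f q p hc]
        set T := t G p.1 p.2 with hT
        apply mul_le_mul_of_nonneg_right _ (by positivity)
        refine le_trans (weight_ok' q T S _ hq ?_) ?_
        · by_cases hff : f p.1 = f p.2
          · right; right
            refine ⟨?_, ?_⟩
            · intro hlt
              exact hf p.1 p.2 hc.1 hc.2 hlt hff
            · rw [hff]
              exact RR_eq q (f p.2)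
          · by_cases hlt : T < S
            · left; exact ⟨hlt, RR_ne q hff⟩
            · right; left; exact ⟨hlt, RR_ne q hff⟩
        · unfold XX
          rw [if_pos hc]
          apply mul_le_mul_of_nonneg_left
          · apply Real.exp_le_exp.mpr
            have h2 : ((FF G p).card : ℝ) ≤ 2 * T := by exact_mod_cast hF
            have h3 : 2 * (((FF G p).card : ℝ) * (4 * (1 / (64 * (q : ℝ))))) =
                ((FF G p).card : ℝ) / (8 * q) := by
              field_simp; ring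
            rw [h3]
            have h4 : ((FF G p).card : ℝ) / (8 * q) ≤ (T : ℝ) / (4 * q) := by
              rw [div_le_div_iff₀ (by positivity) (by positivity)]
              nlinarith
            linarith
          · have h5 := XX_nonneg (G := G) S q (by omega) p
            unfold XX at h5
            rw [if_pos hc] at h5
            exact h5
      · unfold EV
        rw [if_neg hc]
        simp only [card_empty, Nat.cast_zero]
        have := XX_nonneg (G := G) S q (by omega) p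
        positivity)
  exact colouring_of_avoid f q ω hω

/-- weight of a pair in the case of a small scale -/
noncomputable def YY (G : SimpleGraph V) [DecidableRel G.Adj] (p : V × V) : ℝ :=
  if p.1 ≠ p.2 ∧ ¬ G.Adj p.1 p.2 then (13 / 25 : ℝ) ^ (t G p.1 p.2) else 0

lemma YY_nonneg (p : V × V) : 0 ≤ YY G p := by
  unfold YY
  split_ifs
  · positivity
  · exact le_rfl

lemma YY_symm (a b : V) : YY G (a, b) = YY G (b, a) := by
  unfold YY
  simp only
  rw [t_comm G a b]
  have h : (a ≠ b ∧ ¬ G.Adj a b) ↔ (b ≠ a ∧ ¬ G.Adj b a) := by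
    rw [ne_comm, G.adj_comm]
  by_cases hc : b ≠ a ∧ ¬ G.Adj b a
  · rw [if_pos hc, if_pos (h.mpr hc)]
  · rw [if_neg hc, if_neg (fun h' => hc (h.mp h'))]

/-- small scale -/
lemma colour_small [Nonempty V] (r S : ℕ) (hS : S ≤ (100 + 6 * r) ^ 2)
    (hB : ∀ u v, u ≠ v → ¬ G.Adj u v → 36 + 3 * r ≤ t G u v)
    (hD : ∀ x s, 1 ≤ s → (DD G x s).card ≤ (90 * 4 ^ r) * s * S) :
    ∃ col : Sym2 V → Bool, ∀ u v, u ≠ v → ¬ G.Adj u v →
      ∃ w, G.Adj u w ∧ G.Adj v w ∧ col s(u, w) ≠ col s(v, w) := by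
  classical
  have hsum : ∀ x, ∑ y, YY G (x, y) ≤ 1 / 416 := by
    intro x
    have h1 := plain_weight (univ.filter (fun y => x ≠ y ∧ ¬ G.Adj x y)) (fun y => t G x y) S r
      hS (by
        intro y hy
        simp only [mem_filter, mem_univ, true_and] at hy
        exact hB x y hy.1 hy.2) (by
        intro s hs
        refine le_trans (card_le_card ?_) (hD x s hs)
        intro y hy
        simp only [mem_filter, mem_univ, true_and, DD] at hy ⊢
        exact ⟨hy.1.1.symm, hy.1.2, hy.2⟩)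
    rw [sum_filter] at h1
    exact h1
  obtain ⟨ω, hω⟩ := lll_exp (κ := Sym2 V) (α := Fin 2) (EV G (fun _ => true) 2) (FF G)
    (EV_dep _ 2) (YY G) YY_nonneg (by
      intro p
      unfold YY
      split_ifs with hc
      · have h1 := hB p.1 p.2 hc.1 hc.2
        calc (13 / 25 : ℝ) ^ (t G p.1 p.2) ≤ (13 / 25 : ℝ) ^ 2 :=
              pow_le_pow_of_le_one (by norm_num) (by norm_num) (by omega)
          _ ≤ 1 / 2 := by norm_num
      · norm_num)
    (4 * (1 / 416))
    (edge_sum _ YY_nonneg YY_symm _ hsum) (by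
      intro p
      by_cases hc : p.1 ≠ p.2 ∧ ¬ G.Adj p.1 p.2
      · have hF := FF_card p hc
        rw [EV_card_real (fun _ => true) 2 p hc]
        set T := t G p.1 p.2 with hT
        apply mul_le_mul_of_nonneg_right _ (by positivity)
        have hRR : (RR 2 true true).card = 2 := by
          have := RR_eq 2 true
          omega
        rw [hRR]
        unfold YY
        rw [if_pos hc, ← hT]
        have h2 : ((FF G p).card : ℝ) ≤ 2 * T := by exact_mod_cast hF
        have h3 : Real.exp (-(1 / 26) * (T : ℝ)) ≤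
            Real.exp (-(2 * (((FF G p).card : ℝ) * (4 * (1 / 416))))) := by
          apply Real.exp_le_exp.mpr
          nlinarith
        have h4 : (25 / 26 : ℝ) ^ T ≤ Real.exp (-(1 / 26) * (T : ℝ)) := by
          have h5 : (25 / 26 : ℝ) ≤ Real.exp (-(1 / 26)) := by
            have := Real.add_one_le_exp (-(1 / 26) : ℝ)
            linarith
          calc (25 / 26 : ℝ) ^ T ≤ Real.exp (-(1 / 26)) ^ T :=
                pow_le_pow_left₀ (by norm_num) h5 T
            _ = Real.exp (-(1 / 26) * (T : ℝ)) := by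
                rw [← Real.exp_nat_mul]; congr 1; ring
        calc (((2 : ℕ) : ℝ) / ((2 : ℕ) : ℝ) ^ 2) ^ T = (13 / 25 : ℝ) ^ T * (25 / 26 : ℝ) ^ T := by
              rw [← mul_pow]; norm_num
          _ ≤ (13 / 25 : ℝ) ^ T * Real.exp (-(2 * (((FF G p).card : ℝ) * (4 * (1 / 416))))) :=
              mul_le_mul_of_nonneg_left (le_trans h4 h3) (by positivity)
      · unfold EV
        rw [if_neg hc]
        simp only [card_empty, Nat.cast_zero]
        have := YY_nonneg (G := G) p
        positivity)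
  exact colouring_of_avoid _ 2 ω hω

/-- existence of the colouring -/
theorem colouring_exists' [Nonempty V] (r : ℕ) (hcu : CU G (2 ^ r))
    (htB : ∀ u v, u ≠ v → ¬ G.Adj u v → 36 + 3 * r ≤ t G u v) :
    ∃ col : Sym2 V → Bool, ∀ u v, u ≠ v → ¬ G.Adj u v →
      ∃ w, G.Adj u w ∧ G.Adj v w ∧ col s(u, w) ≠ col s(v, w) := by
  obtain ⟨S, f, -, hf, hD⟩ := scale_lemma' (Nat.one_le_two_pow) hcu (36 + 3 * r) (by omega) htB
  have h4 : ((2 : ℕ) ^ r) ^ 2 = 4 ^ r := by
    rw [← pow_mul, mul_comm, pow_mul]; norm_num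
  rw [h4] at hD
  rcases le_total S ((100 + 6 * r) ^ 2) with h | h
  · exact colour_small r S h htB hD
  · refine colour_large r S f h ?_ hf hD
    intro u v h1 h2
    have := htB u v h1 h2
    omega

end Pool.Agent.Y391.RB
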